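import Pool.Agent.H445Z.MHMain

namespace Pool.Agent.Results.MP_07b136_ag.AFarComponent

open Pool.Agent.H445Z.MH

/-- For `n = 1`, `d = 3`, `r = 6` the multigraded Hilbert scheme has an irreducible component
disjoint from `Slip`. -/
theorem result (k : Type*) [Field k] [IsAlgClosed k] :
    ∃ Z ∈ irreducibleComponents (Hilb k 1 3 6), Disjoint Z (Slip k 1 3 6) :=
  main k

end Pool.Agent.Results.MP_07b136_ag.AFarComponent
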